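import Mathlib

/-!
# MP_10f18b_co: the lower bound `(2k+2-d)/(2k+2)` is not sharp for `k ≥ 6`

For all `k ≥ 6` and `d ≥ 2` one has `f(k,d) > (2k+2-d)/(2k+2)`.
-/

namespace Pool.Agent.Results.MP_10f18b_co.NotSharp

open Classical in
/-- `S` is `k`-independent: every vertex of `S` has at most `k` neighbours in `S`. -/
def KIndep {V : Type} (G : SimpleGraph V) (k : ℕ) (S : Finset V) : Prop :=
  ∀ v ∈ S, (S.filter fun w => G.Adj v w).card ≤ k

/-- The `k`-independence number. -/
noncomputable def alpha {V : Type} (G : SimpleGraph V) (k : ℕ) : ℕ :=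
  sSup {m | ∃ S : Finset V, KIndep G k S ∧ S.card = m}

open Classical in
/-- The average degree of a graph on `Fin n`. -/
noncomputable def avgDeg {n : ℕ} (G : SimpleGraph (Fin n)) : ℝ :=
  (∑ v, (G.degree v : ℝ)) / n

/-- `f(k,d)`: the infimum of `α_k(G)/n(G)` over all graphs with at least one vertex and average
degree at most `d`. -/
noncomputable def f (k d : ℕ) : ℝ :=
  sInf {r | ∃ (n : ℕ) (G : SimpleGraph (Fin n)), 0 < n ∧ avgDeg G ≤ d ∧
    r = (alpha G k : ℝ) / n}

section core

variable {V : Type} [Fintype V] (G : SimpleGraph V)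

open Classical in
/-- The number of neighbours in `U`. -/
noncomputable def dg (U : Finset V) (v : V) : ℕ := (U.filter fun w => G.Adj v w).card

/-- Twice the number of edges inside `U`. -/
noncomputable def D (U : Finset V) : ℕ := ∑ u ∈ U, dg G U u

omit [Fintype V] in
lemma dg_mono {U W : Finset V} (h : U ⊆ W) (v : V) : dg G U v ≤ dg G W v := by
  classical
  exact Finset.card_le_card (Finset.filter_subset_filter _ h)

omit [Fintype V] in
/-- Double counting of adjacent pairs. -/
lemma double_count (A B : Finset V) : ∑ a ∈ A, dg G B a = ∑ b ∈ B, dg G A b := by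
  classical
  unfold dg
  simp only [Finset.card_filter]
  rw [Finset.sum_comm]
  apply Finset.sum_congr rfl
  intro b _
  apply Finset.sum_congr rfl
  intro a _
  simp only [SimpleGraph.adj_comm]

omit [Fintype V] in
lemma dg_union {A B : Finset V} [DecidableEq V] (h : Disjoint A B) (v : V) :
    dg G (A ∪ B) v = dg G A v + dg G B v := by
  classical
  unfold dg
  rw [Finset.filter_union, Finset.card_union_of_disjoint]
  exact Finset.disjoint_filter_filter h

omit [Fintype V] in
lemma D_erase [DecidableEq V] (U : Finset V) (v : V) (hv : v ∈ U) :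
    D G U = D G (U.erase v) + 2 * dg G U v := by
  classical
  have hU : U = {v} ∪ U.erase v := by
    ext x
    simp only [Finset.mem_union, Finset.mem_singleton, Finset.mem_erase]
    constructor
    · intro hx
      by_cases h : x = v
      · left; exact h
      · right; exact ⟨h, hx⟩
    · rintro (h | h)
      · rw [h]; exact hv
      · exact h.2
  have hdisj : Disjoint {v} (U.erase v) := by
    rw [Finset.disjoint_singleton_left]
    exact Finset.notMem_erase v U
  have hself : dg G {v} v = 0 := by
    unfold dg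
    rw [Finset.card_eq_zero, Finset.filter_eq_empty_iff]
    intro x hx
    rw [Finset.mem_singleton.1 hx]
    exact G.loopless.irrefl v
  have h1 : D G U = dg G U v + ∑ u ∈ U.erase v, dg G U u := by
    unfold D
    rw [Finset.add_sum_erase _ _ hv]
  have h2 : ∑ u ∈ U.erase v, dg G U u = ∑ u ∈ U.erase v, dg G {v} u + D G (U.erase v) := by
    unfold D
    rw [← Finset.sum_add_distrib]
    apply Finset.sum_congr rfl
    intro u _
    conv_lhs => rw [hU]
    rw [dg_union G hdisj]
  have h3 : ∑ u ∈ U.erase v, dg G {v} u = dg G U v := by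
    rw [double_count, Finset.sum_singleton]
    conv_rhs => rw [hU]
    rw [dg_union G hdisj, hself, zero_add]
  omega

omit [Fintype V] in
lemma self_dg (S : Finset V) (s : V) (hs : s ∈ S) [DecidableEq V]
    [DecidablePred fun w => w = s ∨ G.Adj s w] :
    (S.filter fun w => w = s ∨ G.Adj s w).card = dg G S s + 1 := by
  classical
  have : (S.filter fun w => w = s ∨ G.Adj s w) = insert s (S.filter fun w => G.Adj s w) := by
    ext x
    simp only [Finset.mem_filter, Finset.mem_insert]
    constructor
    · rintro ⟨h1, h2 | h2⟩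
      · left; exact h2
      · right; exact ⟨h1, h2⟩
    · rintro (h | ⟨h1, h2⟩)
      · rw [h]; exact ⟨hs, Or.inl rfl⟩
      · exact ⟨h1, Or.inr h2⟩
  rw [this, Finset.card_insert_of_notMem]
  · unfold dg
    congr
  · intro h
    exact G.loopless.irrefl s (Finset.mem_filter.1 h).2

/-- The main deletion lemma. -/
lemma deletion [DecidableEq V] (k : ℕ) (hk : 6 ≤ k) : ∃ T : Finset V, KIndep G k Tᶜ ∧ ∃ t : ℕ,
    (k + 2) * t ≤ Fintype.card V ∧ (2 * k + 3) * T.card ≤ D G Finset.univ + t := by
  classical
  -- phase 4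
  obtain ⟨U, -, hUmin⟩ := Finset.exists_min_image (Finset.univ : Finset (Finset V))
    (fun U => (D G U : ℤ) - (2 * k + 3) * U.card) Finset.univ_nonempty
  have hdeg : ∀ v ∈ U, dg G U v ≤ k + 1 := by
    intro v hv
    have h1 := hUmin (U.erase v) (Finset.mem_univ _)
    have h2 := D_erase G U v hv
    have h3 : (U.erase v).card + 1 = U.card := Finset.card_erase_add_one hv
    have h4 : (U.card : ℤ) = (U.erase v).card + 1 := by exact_mod_cast h3.symm
    have h5 : (D G U : ℤ) = D G (U.erase v) + 2 * dg G U v := by exact_mod_cast h2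
    rw [h4, h5] at h1
    have h6 : 2 * (dg G U v : ℤ) ≤ 2 * k + 3 := by linarith
    have h7 : 2 * dg G U v ≤ 2 * k + 3 := by exact_mod_cast h6
    omega
  have hpot : D G U + (2 * k + 3) * Uᶜ.card ≤ D G Finset.univ := by
    have h1 := hUmin Finset.univ (Finset.mem_univ _)
    have h2 : U.card + Uᶜ.card = (Finset.univ : Finset V).card := by
      rw [Finset.card_univ, Finset.card_add_card_compl]
    have h3 : ((Finset.univ : Finset V).card : ℤ) = U.card + Uᶜ.card := by exact_mod_cast h2.symm
    rw [h3] at h1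
    have h4 : (D G U : ℤ) + (2 * k + 3) * Uᶜ.card ≤ D G Finset.univ := by linarith
    exact_mod_cast h4
  -- closed neighbourhoods
  let cn : Finset V → V → Finset V := fun S u => S.filter fun s => s = u ∨ G.Adj u s
  -- vertices of full degree
  set S : Finset V := U.filter fun v => dg G U v = k + 1 with hS
  -- vertices of S surviving the deletion of T
  let surv : Finset V → Finset V → Finset V := fun S T =>
    S.filter fun s => ∀ x ∈ T, ¬ (s = x ∨ G.Adj x s)
  have hsurv_insert : ∀ (S T : Finset V) (u : V), surv S (insert u T) =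
      surv S T \ cn (surv S T) u := by
    intro S T u
    ext s
    simp only [surv, cn, Finset.mem_filter, Finset.mem_sdiff, Finset.mem_insert]
    constructor
    · rintro ⟨h1, h2⟩
      refine ⟨⟨h1, fun x hx => h2 x (Or.inr hx)⟩, ?_⟩
      rintro ⟨_, h4⟩
      exact h2 u (Or.inl rfl) h4
    · rintro ⟨⟨h1, h2⟩, h3⟩
      refine ⟨h1, ?_⟩
      rintro x (rfl | hx)
      · intro h4
        exact h3 ⟨⟨h1, h2⟩, h4⟩
      · exact h2 x hx
  -- maximal choice
  have hchoice : ∀ (r : ℕ) (S : Finset V), ∃ T : Finset V, T ⊆ U ∧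
      r * T.card + (surv S T).card ≤ S.card ∧
      ∀ u ∈ U, (cn (surv S T) u).card < r ∨ u ∈ T := by
    intro r S
    obtain ⟨T, hT, hTmax⟩ := Finset.exists_max_image
      (Finset.univ.filter fun T : Finset V => T ⊆ U ∧ r * T.card + (surv S T).card ≤ S.card)
      Finset.card ⟨∅, by
        rw [Finset.mem_filter]
        refine ⟨Finset.mem_univ _, Finset.empty_subset _, ?_⟩
        rw [Finset.card_empty, mul_zero, zero_add]
        exact Finset.card_le_card (Finset.filter_subset _ _)⟩
    rw [Finset.mem_filter] at hT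
    refine ⟨T, hT.2.1, hT.2.2, ?_⟩
    intro u hu
    by_contra hcon
    push Not at hcon
    obtain ⟨h1, h2⟩ := hcon
    have h3 : (surv S (insert u T)).card + (cn (surv S T) u).card = (surv S T).card := by
      rw [hsurv_insert, Finset.card_sdiff_add_card_eq_card]
      exact Finset.filter_subset _ _
    have h4 : (insert u T).card = T.card + 1 := Finset.card_insert_of_notMem h2
    have h5 := hTmax (insert u T) (by
      rw [Finset.mem_filter]
      refine ⟨Finset.mem_univ _, Finset.insert_subset hu hT.2.1, ?_⟩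
      rw [h4]
      have := hT.2.2
      rw [mul_add, mul_one]
      omega)
    omega
  obtain ⟨T3, hT3U, hT3, hT3'⟩ := hchoice 3 S
  set S' := surv S T3 with hS'
  obtain ⟨T2, hT2U, hT2, hT2'⟩ := hchoice 2 S'
  set S1 := surv S' T2 with hS1
  -- basic inclusions
  have hS'S : S' ⊆ S := Finset.filter_subset _ _
  have hS1S' : S1 ⊆ S' := Finset.filter_subset _ _
  have hSU : S ⊆ U := Finset.filter_subset _ _
  have hSdeg : ∀ s ∈ S, dg G U s = k + 1 := fun s hs => (Finset.mem_filter.1 hs).2
  have hcn3 : ∀ u ∈ U, (cn S' u).card ≤ 2 := by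
    intro u hu
    rcases hT3' u hu with h | h
    · omega
    · have : cn S' u = ∅ := by
        rw [Finset.filter_eq_empty_iff]
        intro s hs
        rw [hS', Finset.mem_filter] at hs
        exact hs.2 u h
      rw [this, Finset.card_empty]
      omega
  have hcn2 : ∀ u ∈ U, (cn S1 u).card ≤ 1 := by
    intro u hu
    rcases hT2' u hu with h | h
    · omega
    · have : cn S1 u = ∅ := by
        rw [Finset.filter_eq_empty_iff]
        intro s hs
        rw [hS1, Finset.mem_filter] at hs
        exact hs.2 u h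
      rw [this, Finset.card_empty]
      omega
  have hcn_self : ∀ (S : Finset V) (s : V), s ∈ S → (cn S s).card = dg G S s + 1 := by
    intro S s hs
    exact self_dg G S s hs
  have hcn_ge : ∀ (S : Finset V) (s : V), dg G S s ≤ (cn S s).card := by
    intro S s
    apply Finset.card_le_card
    intro x hx
    rw [Finset.mem_filter] at hx ⊢
    exact ⟨hx.1, Or.inr hx.2⟩
  -- the deleted set
  refine ⟨Uᶜ ∪ T3 ∪ T2 ∪ S1, ?_, S1.card, ?_, ?_⟩
  · -- the rest is k-independent
    intro v hv
    have hmemT : ∀ x, x ∈ (Uᶜ ∪ T3 ∪ T2 ∪ S1)ᶜ ↔ (x ∈ U ∧ x ∉ T3 ∧ x ∉ T2 ∧ x ∉ S1) := by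
      intro x
      simp only [Finset.mem_compl, Finset.mem_union, not_or, not_not]
      tauto
    have hv' := (hmemT v).1 hv
    have hsub : (Uᶜ ∪ T3 ∪ T2 ∪ S1)ᶜ ⊆ U := fun x hx => ((hmemT x).1 hx).1
    by_contra hcon
    push Not at hcon
    have h1 : dg G (Uᶜ ∪ T3 ∪ T2 ∪ S1)ᶜ v ≤ dg G U v := dg_mono G hsub v
    have h2 : dg G (Uᶜ ∪ T3 ∪ T2 ∪ S1)ᶜ v = ((Uᶜ ∪ T3 ∪ T2 ∪ S1)ᶜ.filter
      fun w => G.Adj v w).card := rfl
    have h3 := hdeg v hv'.1
    have hdv : dg G U v = k + 1 := by omega
    have hvS : v ∈ S := Finset.mem_filter.2 ⟨hv'.1, hdv⟩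
    -- no neighbour of v in U is deleted
    have heq : (Uᶜ ∪ T3 ∪ T2 ∪ S1)ᶜ.filter (fun w => G.Adj v w) =
        U.filter (fun w => G.Adj v w) := by
      apply Finset.eq_of_subset_of_card_le
      · exact Finset.filter_subset_filter _ hsub
      · have : (U.filter fun w => G.Adj v w).card = dg G U v := rfl
        omega
    have hno : ∀ w ∈ U, G.Adj v w → w ∉ T3 ∧ w ∉ T2 := by
      intro w hw hvw
      have hmem : w ∈ U.filter (fun w => G.Adj v w) := Finset.mem_filter.2 ⟨hw, hvw⟩
      rw [← heq, Finset.mem_filter, hmemT] at hmem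
      exact ⟨hmem.1.2.1, hmem.1.2.2.1⟩
    have hvS' : v ∈ S' := by
      rw [hS', Finset.mem_filter]
      refine ⟨hvS, ?_⟩
      rintro x hx (h | h)
      · exact hv'.2.1 (h ▸ hx)
      · exact (hno x (hT3U hx) h.symm).1 hx
    apply hv'.2.2.2
    rw [hS1, Finset.mem_filter]
    refine ⟨hvS', ?_⟩
    rintro x hx (h | h)
    · exact hv'.2.2.1 (h ▸ hx)
    · exact (hno x (hT2U hx) h.symm).2 hx
  · -- disjoint closed neighbourhoods
    have h1 : ∑ u ∈ U, (cn S1 u).card ≤ U.card := by
      have := Finset.sum_le_card_nsmul U (fun u => (cn S1 u).card) 1 hcn2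
      simpa using this
    have h2 : ∑ u ∈ U, (cn S1 u).card = ∑ s ∈ S1, (cn U s).card := by
      simp only [cn, Finset.card_filter]
      rw [Finset.sum_comm]
      apply Finset.sum_congr rfl
      intro b _
      apply Finset.sum_congr rfl
      intro a _
      simp only [SimpleGraph.adj_comm, eq_comm]
    have h3 : ∑ s ∈ S1, (cn U s).card = S1.card * (k + 2) := by
      rw [Finset.sum_const_nat]
      intro s hs
      rw [hcn_self U s (hSU (hS'S (hS1S' hs))), hSdeg s (hS'S (hS1S' hs))]
    have h4 : U.card ≤ Fintype.card V := Finset.card_le_univ U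
    rw [mul_comm]
    omega
  · -- counting edges
    set B2 := S' \ S1 with hB2
    set R := U \ S' with hR
    have hS'U : S' ⊆ U := hS'S.trans hSU
    have hUR : ∀ v, dg G U v = dg G S' v + dg G R v := by
      intro v
      rw [← dg_union G Finset.disjoint_sdiff, Finset.union_sdiff_of_subset hS'U]
    have hS'split : ∀ v, dg G S' v = dg G S1 v + dg G B2 v := by
      intro v
      rw [← dg_union G Finset.disjoint_sdiff, Finset.union_sdiff_of_subset hS1S']
    have hDU : D G U = ∑ s ∈ S', dg G U s + ∑ r ∈ R, dg G U r := by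
      unfold D
      rw [hR, add_comm, Finset.sum_sdiff hS'U]
    have h1 : ∑ s ∈ S', dg G U s = S'.card * (k + 1) :=
      Finset.sum_const_nat fun s hs => hSdeg s (hS'S hs)
    have h2 : ∑ r ∈ R, dg G U r = ∑ r ∈ R, dg G S' r + ∑ r ∈ R, dg G R r := by
      rw [← Finset.sum_add_distrib]
      exact Finset.sum_congr rfl fun r _ => hUR r
    have h3 : ∑ r ∈ R, dg G S' r = ∑ s ∈ S', dg G R s := double_count G R S'
    have h4 : ∑ s ∈ S', dg G R s + ∑ s ∈ S', dg G S' s = S'.card * (k + 1) := by
      rw [← h1, ← Finset.sum_add_distrib]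
      apply Finset.sum_congr rfl
      intro s _
      rw [hUR s]
      ring
    have h5 : ∑ s ∈ S', dg G S' s = ∑ s ∈ S1, dg G S' s + ∑ s ∈ B2, dg G S' s := by
      rw [hB2, add_comm, Finset.sum_sdiff hS1S']
    have h6 : ∑ s ∈ S1, dg G S' s = ∑ s ∈ S1, dg G B2 s := by
      apply Finset.sum_congr rfl
      intro s hs
      rw [hS'split s]
      have := hcn2 s (hS'U (hS1S' hs))
      rw [hcn_self S1 s hs] at this
      omega
    have h7 : ∑ s ∈ S1, dg G B2 s = ∑ s ∈ B2, dg G S1 s := double_count G S1 B2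
    have h8 : ∑ s ∈ B2, dg G S1 s ≤ ∑ s ∈ B2, dg G S' s :=
      Finset.sum_le_sum fun s _ => dg_mono G hS1S' s
    have h9 : ∑ s ∈ B2, dg G S' s ≤ B2.card := by
      have := Finset.sum_le_card_nsmul B2 (fun s => dg G S' s) 1 (by
        intro s hs
        have hsS' : s ∈ S' := (Finset.mem_sdiff.1 hs).1
        have := hcn3 s (hS'U hsS')
        rw [hcn_self S' s hsS'] at this
        omega)
      simpa using this
    set A := S \ S' with hA
    have hAR : A ⊆ R := by
      intro x hx
      rw [hA, Finset.mem_sdiff] at hx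
      rw [hR, Finset.mem_sdiff]
      exact ⟨hSU hx.1, hx.2⟩
    have h10 : A.card * (k - 1) ≤ ∑ r ∈ R, dg G R r := by
      refine le_trans ?_ (Finset.sum_le_sum_of_subset hAR)
      have := Finset.card_nsmul_le_sum A (fun r => dg G R r) (k - 1) (by
        intro a ha
        have haS : a ∈ S := (Finset.mem_sdiff.1 ha).1
        have e1 := hUR a
        have e2 := hSdeg a haS
        have e3 := hcn3 a (hSU haS)
        have e4 := hcn_ge S' a
        show k - 1 ≤ dg G R a
        omega)
      simpa using this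
    have hAcard : A.card + S'.card = S.card := Finset.card_sdiff_add_card_eq_card hS'S
    have hBcard : B2.card + S1.card = S'.card := Finset.card_sdiff_add_card_eq_card hS1S'
    have hcardT : (Uᶜ ∪ T3 ∪ T2 ∪ S1).card ≤ Uᶜ.card + T3.card + T2.card + S1.card := by
      refine (Finset.card_union_le _ _).trans (Nat.add_le_add_right ?_ _)
      refine (Finset.card_union_le _ _).trans (Nat.add_le_add_right ?_ _)
      exact Finset.card_union_le _ _
    have hA3 : 3 * T3.card ≤ A.card := by omega
    have hB2' : 2 * T2.card ≤ B2.card := by omega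
    have k1 : (2 * k + 3) * T3.card ≤ A.card * (k - 1) := by
      calc (2 * k + 3) * T3.card ≤ (3 * (k - 1)) * T3.card := Nat.mul_le_mul_right _ (by omega)
        _ = (k - 1) * (3 * T3.card) := by ring
        _ ≤ (k - 1) * A.card := Nat.mul_le_mul_left _ hA3
        _ = A.card * (k - 1) := by ring
    have k2 : (2 * k + 3) * T2.card ≤ 2 * k * B2.card := by
      calc (2 * k + 3) * T2.card ≤ (4 * k) * T2.card := Nat.mul_le_mul_right _ (by omega)
        _ = (2 * k) * (2 * T2.card) := by ring
        _ ≤ 2 * k * B2.card := Nat.mul_le_mul_left _ hB2'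
    have k3 : 2 * (S'.card * (k + 1)) = 2 * k * B2.card + 2 * B2.card + (2 * k + 2) * S1.card := by
      rw [← hBcard]
      ring
    have k4 : (2 * k + 3) * (Uᶜ ∪ T3 ∪ T2 ∪ S1).card ≤ (2 * k + 3) * Uᶜ.card +
        (2 * k + 3) * T3.card + (2 * k + 3) * T2.card + (2 * k + 2) * S1.card + S1.card := by
      refine (Nat.mul_le_mul_left _ hcardT).trans (le_of_eq ?_)
      ring
    omega

end core

lemma le_alpha {V : Type} [Fintype V] (G : SimpleGraph V) (k : ℕ) (S : Finset V)
    (hS : KIndep G k S) : S.card ≤ alpha G k := by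
  apply le_csSup
  · refine ⟨Fintype.card V, ?_⟩
    rintro m ⟨S, _, rfl⟩
    exact Finset.card_le_univ S
  · exact ⟨S, hS, rfl⟩

/-- For all `k ≥ 6` and `d ≥ 2` the infimum `f(k,d)` is strictly larger than
`(2k+2-d)/(2k+2)`; in fact it is at least `1 - (d + 1/(k+2))/(2k+3)`. -/
theorem result : ∀ k d : ℕ, 6 ≤ k → 2 ≤ d →
    (2 * (k : ℝ) + 2 - d) / (2 * k + 2) < 1 - ((d : ℝ) + 1 / (k + 2)) / (2 * k + 3) ∧
    1 - ((d : ℝ) + 1 / (k + 2)) / (2 * k + 3) ≤ f k d := by
  intro k d hk hd
  have hkR : (6 : ℝ) ≤ k := by exact_mod_cast hk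
  have hdR : (2 : ℝ) ≤ d := by exact_mod_cast hd
  constructor
  · have h1 : (0 : ℝ) < 2 * k + 2 := by linarith
    have h2 : (0 : ℝ) < 2 * k + 3 := by linarith
    have h3 : (0 : ℝ) < (k : ℝ) + 2 := by linarith
    rw [div_lt_iff₀ h1]
    have e : (1 - ((d : ℝ) + 1 / (k + 2)) / (2 * k + 3)) * (2 * k + 2) =
        ((2 * k + 2) * ((2 * k + 3) * (k + 2)) - (2 * k + 2) * (d * (k + 2) + 1)) /
          ((2 * k + 3) * (k + 2)) := by
      field_simp
    rw [e, lt_div_iff₀ (by positivity)]
    nlinarith [mul_nonneg (by linarith : (0 : ℝ) ≤ d - 2) h3.le]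
  · apply le_csInf
    · refine ⟨_, 1, ⊥, by norm_num, ?_, rfl⟩
      unfold avgDeg
      simp
    · rintro _ ⟨n, G, hn, hG, rfl⟩
      classical
      obtain ⟨T, hT, t, ht1, ht2⟩ := deletion G k hk
      have hnR : (0 : ℝ) < n := by exact_mod_cast hn
      have hD : (D G Finset.univ : ℝ) ≤ n * d := by
        have h1 : (D G Finset.univ : ℝ) = ∑ v, (G.degree v : ℝ) := by
          unfold D
          push_cast
          apply Finset.sum_congr rfl
          intro v _
          congr 1
          unfold dg
          rw [← SimpleGraph.card_neighborFinset_eq_degree]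
          congr 1
          ext w
          simp
        unfold avgDeg at hG
        rw [div_le_iff₀ hnR] at hG
        rw [h1]
        refine le_trans (le_of_eq ?_) (hG.trans (le_of_eq (by ring)))
        apply Finset.sum_congr rfl
        intro v _
        congr 1
      have hα := le_alpha G k Tᶜ hT
      have hcard : T.card + Tᶜ.card = n := by
        rw [Finset.card_add_card_compl, Fintype.card_fin]
      rw [Fintype.card_fin] at ht1
      have ht1' : ((k : ℝ) + 2) * t ≤ n := by exact_mod_cast ht1
      have ht2' : (2 * (k : ℝ) + 3) * T.card ≤ D G Finset.univ + t := by exact_mod_cast ht2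
      have hcard' : (T.card : ℝ) + (Tᶜ.card : ℝ) = n := by exact_mod_cast hcard
      have hα' : (Tᶜ.card : ℝ) ≤ alpha G k := by exact_mod_cast hα
      have h3 : (0 : ℝ) < (k : ℝ) + 2 := by linarith
      have h2 : (0 : ℝ) < 2 * (k : ℝ) + 3 := by linarith
      have ht3 : (t : ℝ) ≤ n * (1 / (k + 2)) := by
        rw [mul_one_div, le_div_iff₀ h3]
        linarith
      have hTb : (T.card : ℝ) ≤ n * (((d : ℝ) + 1 / (k + 2)) / (2 * k + 3)) := by
        rw [mul_div_assoc', le_div_iff₀ h2]
        nlinarith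
      rw [le_div_iff₀ hnR]
      nlinarith

end Pool.Agent.Results.MP_10f18b_co.NotSharp
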